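import Pool.Agent.P8H82.FF.Stm2

/-! Project FF of helper82, package FINT (helper4): finitely many sets of primes with bounded norm. -/

set_option autoImplicit false

namespace Pool.Agent.P8H4.FF

open NumberField IsDedekindDomain
open Pool.Agent.P8H82.FF
open Pool.Agent.TH876.Loc (nn)

theorem fint : S_FINT := by
  intro K _ _ R
  classical
  have h0 : {I : Ideal (𝓞 K) | Ideal.absNorm I ≤ ⌊R⌋₊}.Finite :=
    Ideal.finite_setOfPred_absNorm_le ⌊R⌋₊
  have h1 : {v : HeightOneSpectrum (𝓞 K) | Ideal.absNorm v.asIdeal ≤ ⌊R⌋₊}.Finite :=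
    Set.Finite.preimage (fun u _ v _ h => HeightOneSpectrum.ext h) h0
  refine (h1.toFinset.powerset.finite_toSet).subset fun D hD => ?_
  rw [Finset.mem_coe, Finset.mem_powerset]
  intro v hv
  rw [Set.Finite.mem_toFinset, Set.mem_ofPred_eq]
  apply Nat.le_floor
  have h2 : (Ideal.absNorm v.asIdeal : ℝ) ≤ nn D := by
    unfold nn
    have h3 : (Ideal.absNorm v.asIdeal : ℝ) = Pool.Agent.H691R3.Nv v := rfl
    rw [h3, ← Finset.mul_prod_erase D _ hv]
    refine le_mul_of_one_le_right (Pool.Agent.TH876.Loc.Nv_pos v).le ?_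
    exact Finset.prod_induction _ (fun x => (1 : ℝ) ≤ x)
      (fun a b ha hb => one_le_mul_of_one_le_of_one_le ha hb) le_rfl
      fun u _ => Pool.Agent.TH876.Loc.one_le_Nv u
  exact h2.trans hD

end Pool.Agent.P8H4.FF
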